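import Pool.Agent.W300.PG.TRGE

/-! Kodaira dimension and numerical dimension as numbers. -/

set_option autoImplicit false
set_option linter.overlappingInstances false
set_option linter.unusedSectionVars false

open FF IntermediateField Pool.Agent.W619.PQ Pool.Agent.W619.PL Pool.Agent.W619.TW
  Pool.Agent.W603.LV Pool.Agent.W619.Y

namespace Pool.Agent.V11168.Abund

variable {k : Type} [Field k] [CharZero k] {K : Type} [Field K] [Algebra k K]

theorem kodTr_mono {n a b : ℕ} (hab : b ≤ a) (h : KodTr k K n a) : KodTr k K n b := by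
  obtain ⟨m, hm, ω, hω, D, h0, hind⟩ := h
  have h1 : b + 1 ≤ a + 1 := by omega
  refine ⟨m, hm, fun l => ω (Fin.castLE h1 l), fun l => hω _, D, fun l => h0 _, ?_⟩
  have h2 := hind.comp (Fin.castLE hab) (Fin.castLE_injective hab)
  convert h2 using 1
  funext l
  have e1 : Fin.castLE h1 l.succ = (Fin.castLE hab l).succ := by ext; simp
  have e2 : Fin.castLE h1 0 = 0 := by ext; simp
  simp only [Function.comp, e1, e2]

theorem numLe_mono {n a b : ℕ} (hab : a ≤ b) {Bd : Place k K → Prop} (h : NumLe k K n Bd a) :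
    NumLe k K n Bd b := by
  intro S
  obtain ⟨C, hC⟩ := h S
  refine ⟨C, fun m N hm hN => (hC m N hm hN).trans ?_⟩
  exact Nat.mul_le_mul_left C (Nat.pow_le_pow_right hm hab)

theorem le_of_kod_num {n a h : ℕ} (hn : Algebra.trdeg k K = n) (hk : KodTr k K n a)
    (hnum : NumLe k K n (fun _ => False) h) : a ≤ h := by
  obtain ⟨m, hm, hj⟩ := Pool.Agent.W300.PG.TRGE.main k K n a hn hk
  obtain ⟨C, hC⟩ := hnum {1}
  by_contra hlt
  push Not at hlt
  have key : ∀ j : ℕ, 1 ≤ j → j ^ a ≤ C * (j * m) ^ h := by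
    intro j hj1
    obtain ⟨ω, hω1, hω2⟩ := hj j hj1
    refine hC (j * m) (j ^ a) (Nat.mul_pos hj1 hm) ⟨ω, hω1, fun l => ?_⟩
    obtain ⟨h1, h2, h3⟩ := hω2 l
    have hd : ∀ (v : Place k K) (f : K), Dom v {1} 0 f → Dom v {1} 1 f := by
      intro v f hf
      rcases hf with hf | ⟨s, hs, hs0, hf⟩
      · exact Or.inl hf
      · right
        refine ⟨s, hs, hs0, ?_⟩
        rw [Finset.mem_singleton] at hs
        subst hs
        rw [v.ord_one] at hf ⊢
        simpa using hf
    exact ⟨h1, fun v hv hb D hD => hd _ _ (h2 v hv hb D hD),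
      fun v hv hb D hD => hd _ _ (h3 v hv hb D hD)⟩
  have h1 := key (C * m ^ h + 1) (by omega)
  have h2 : (C * m ^ h + 1) ^ (h + 1) ≤ (C * m ^ h + 1) ^ a :=
    Nat.pow_le_pow_right (by omega) (by omega)
  have h3 : C * ((C * m ^ h + 1) * m) ^ h = (C * m ^ h) * (C * m ^ h + 1) ^ h := by
    rw [mul_pow]
    ring
  rw [h3] at h1
  have h4 : (C * m ^ h + 1) ^ (h + 1) = (C * m ^ h + 1) * (C * m ^ h + 1) ^ h := by
    rw [pow_succ]
    ring
  rw [h4] at h2
  have h5 : 0 < (C * m ^ h + 1) ^ h := Nat.pow_pos (by omega)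
  nlinarith

end Pool.Agent.V11168.Abund
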