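import Pool.Agent.Y173.QA.Kod
import Pool.Agent.Y173.QA.Str2

/-! The lower bound for the Kodaira dimension of the quotient. -/

set_option autoImplicit false
set_option linter.overlappingInstances false
set_option linter.unusedSectionVars false

open FF IntermediateField Pool.Agent.W619.PQ Pool.Agent.W619.PL Pool.Agent.W619.TW
  Pool.Agent.W603.LV Pool.Agent.W619.Y Pool.Agent.TH122.AB Pool.Agent.Y173.QA

namespace Pool.Agent.V11168.Abund

variable {k : Type} [Field k] [CharZero k] {L : Type} [Field L] [Algebra k L]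

/-- exchange of one form in the exterior product -/
theorem eta_update {n : ℕ} {θ : Fin n → Derivation k L L →ₗ[L] L}
    {P : Fin n → Derivation k L L} (hP : ∀ D, D = ∑ i, θ i D • P i)
    (τ : Derivation k L L →ₗ[L] L) (i : Fin n) (D : Fin n → Derivation k L L) :
    eta (Function.update θ i τ) D = τ (P i) * eta θ D := by
  classical
  unfold eta
  have h1 : (Matrix.of fun l j => Function.update θ i τ l (D j)) =
      (Matrix.of fun l j => θ l (D j)).updateRow i
        (∑ l, τ (P l) • (Matrix.of fun l j => θ l (D j)) l) := by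
    ext l j
    rw [Matrix.of_apply, Matrix.updateRow_apply]
    by_cases hl : l = i
    · subst hl
      rw [Function.update_self, if_pos rfl, Finset.sum_apply, form_expand hP τ (D j)]
      refine Finset.sum_congr rfl fun b _ => ?_
      rw [Pi.smul_apply, Matrix.of_apply, smul_eq_mul, mul_comm]
    · rw [Function.update_of_ne hl, if_neg hl, Matrix.of_apply]
  rw [h1, Matrix.det_updateRow_sum]
  rfl

/-- **The lower bound.** -/
theorem kod_lower [IsAlgClosed k] {n a : ℕ} (G : Subgroup (L ≃ₐ[k] L)) [Finite G]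
    {V : Submodule k (Derivation k L L →ₗ[L] L)} (htr : Algebra.trdeg k L = n)
    (hreg : ∀ θ ∈ V, IsRegForm n θ)
    (hstab : ∀ g ∈ G, ∀ θ ∈ V, ∃ θ' ∈ V, IsImage g θ θ')
    (hRT : ReidTai n G V 0)
    {θ : Fin n → Derivation k L L →ₗ[L] L} (hθ : ∀ i, θ i ∈ V)
    {D0 : Fin n → Derivation k L L} (hD0 : eta θ D0 ≠ 0)
    {P : Fin n → Derivation k L L} (hP : ∀ D, D = ∑ i, θ i D • P i)
    {t : Fin a → L} (ht : AlgebraicIndependent k t) (htP : ∀ j, ∃ τ ∈ V, ∃ i, t j = τ (P i)) :
    KodTr k (fixedField G) n a := by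
  choose τ hτ i hi using htP
  obtain ⟨Θ, hΘ⟩ : ∃ Θ : Fin (a + 1) → Fin n → Derivation k L L →ₗ[L] L,
      Θ = Fin.cons θ (fun j => Function.update θ (i j) (τ j)) := ⟨_, rfl⟩
  have hΘV : ∀ l b, Θ l b ∈ V := by
    intro l b
    rw [hΘ]
    refine Fin.cases ?_ (fun j => ?_) l
    · exact hθ b
    · rw [Fin.cons_succ]
      by_cases hb : b = i j
      · rw [hb, Function.update_self]
        exact hτ j
      · rw [Function.update_of_ne hb]
        exact hθ b
  have hval : ∀ D, eta (Θ 0) D = eta θ D := by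
    intro D
    rw [hΘ, Fin.cons_zero]
  have hval2 : ∀ (j : Fin a) D, eta (Θ j.succ) D = t j * eta θ D := by
    intro j D
    rw [hΘ, Fin.cons_succ, eta_update hP, hi]
  refine kod_descent G htr (m := 1) le_rfl (fun l D => eta (Θ l) D) (fun l => eta_pluri (Θ l))
    ?_ D0 ?_ ?_
  · intro v hv
    obtain ⟨w, e, hwv, hg⟩ := exists_rot G v hv
    refine ⟨w, e, hwv, fun D D' hD hDD l g => ?_⟩
    obtain ⟨h1, h2, h, ζ, hord, hζ, hrot⟩ := hg g
    rw [← ge_comp]
    exact est_eta G htr hreg hstab hRT h1 h2 hord hζ hrot (hΘV l) hD hDD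
  · intro l
    refine Fin.cases ?_ (fun j => ?_) l
    · rw [hval]
      exact hD0
    · rw [hval2]
      exact mul_ne_zero (ht.ne_zero j) hD0
  · have e1 : (fun l : Fin a => eta (Θ l.succ) D0 / eta (Θ 0) D0) = t := by
      funext l
      rw [hval, hval2, mul_div_cancel_right₀ _ hD0]
    rw [e1]
    exact ht

end Pool.Agent.V11168.Abund
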