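import Pool.Agent.V11168.Abund.Up
import Pool.Agent.V11168.Abund.Low
import Pool.Agent.W619.Y.Down

/-! Kodaira dimension and numerical dimension of quotients of varieties with closed regular 1-forms. -/

set_option autoImplicit false
set_option linter.overlappingInstances false
set_option linter.unusedSectionVars false

open FF IntermediateField Pool.Agent.W619.PQ Pool.Agent.W619.PL Pool.Agent.W619.TW
  Pool.Agent.W603.LV Pool.Agent.W619.Y Pool.Agent.TH122.AB MvPolynomial Pool.Agent.Y173.QA

namespace Pool.Agent.V11168.Abund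

variable {k : Type} [Field k] [CharZero k] [IsAlgClosed k] {L : Type} [Field L] [Algebra k L]

theorem hfin_of [hess : Algebra.EssFiniteType k L] {n : ℕ} (y : Fin n → L)
    (hy : IsTranscendenceBasis k y) :
    FiniteDimensional (IntermediateField.adjoin k (Set.range y)) L := by
  set K0 := IntermediateField.adjoin k (Set.range y) with hK0
  have hess' : Algebra.EssFiniteType K0 L := Algebra.EssFiniteType.of_comp k K0 L
  have halg : Algebra.IsAlgebraic K0 L := hy.isAlgebraic_field
  obtain ⟨s, hs⟩ := IntermediateField.fg_top K0 L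
  have h1 : FiniteDimensional K0 (IntermediateField.adjoin K0 (s : Set L)) :=
    IntermediateField.finiteDimensional_adjoin fun x _ =>
      (halg.isAlgebraic x).isIntegral
  rw [hs] at h1
  exact h1.equiv IntermediateField.topEquiv.toLinearEquiv

theorem main [Algebra.EssFiniteType k L] {n : ℕ} (hn1 : 1 ≤ n) (hn : Algebra.trdeg k L = n)
    (G : Subgroup (L ≃ₐ[k] L)) [Finite G]
    (V : Submodule k (Derivation k L L →ₗ[L] L)) (hreg : ∀ θ ∈ V, IsRegForm n θ)
    (hstab : ∀ g ∈ G, ∀ θ ∈ V, ∃ θ' ∈ V, IsImage g θ θ')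
    {θ : Fin n → Derivation k L L →ₗ[L] L} (hθ : ∀ i, θ i ∈ V)
    {D0 : Fin n → Derivation k L L} (hD0 : eta θ D0 ≠ 0) :
    ((∀ θ ∈ V, IsClosedForm θ) → ∃ a : ℕ, a + Module.finrank k (constFields V) = n ∧
      (ReidTai n G V 0 → KodTr k (fixedField G) n a) ∧
      (IsRegularOnModel (constFields V) → NumLe k L n (fun _ => False) a ∧
        NumLe k (fixedField G) n (fun _ => False) a)) ∧
    (ReidTai n G V 1 → (∀ a, KodTr k (fixedField G) n a ↔ KodTr k L n a) ∧
      ∀ a, NumLe k L n (fun _ => False) a → NumLe k (fixedField G) n (fun _ => False) a) := by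
  refine ⟨fun hcl => ?_, fun hRT => ⟨fun a => ⟨fun h => kod_up G hn h,
    fun h => kod_down G hn hreg hstab hRT hθ hD0 h⟩, fun a h => (down n hn G).2.2 a h⟩⟩
  have hfin : ∀ y : Fin n → L, IsTranscendenceBasis k y →
      FiniteDimensional (IntermediateField.adjoin k (Set.range y)) L := fun y hy => hfin_of y hy
  obtain ⟨a, r, t, P, U, har, ht, -, hP, htP, hU, hUt, hUspan, -, hrank⟩ :=
    structure_thm hn hfin V hreg hcl hθ hD0
  refine ⟨a, by rw [hrank]; exact har, fun hRT => kod_lower G hn hreg hstab hRT hθ hD0 hP ht htP,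
    fun hmod => ?_⟩
  subst har
  obtain ⟨N, z, hz0, htop, hUB⟩ := hmod
  have h1 : NumLe k L (a + r) (fun _ => False) a :=
    num_core (by omega) hn hfin ht hz0 htop hUt (fun l i j => hUB _ (hU l) i j) hUspan
  exact ⟨h1, (down (a + r) hn G).2.2 a h1⟩

end Pool.Agent.V11168.Abund
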