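import Pool.Agent.Y173.QA.Phi
import Pool.Agent.Y173.QA.Str2
import Pool.Agent.Y173.QA.DefsU

/-! The upper bound for the numerical dimension of a variety with closed regular 1-forms. -/

set_option autoImplicit false
set_option linter.overlappingInstances false
set_option linter.unusedSectionVars false

open FF IntermediateField Pool.Agent.W619.PQ Pool.Agent.W619.PL Pool.Agent.W619.TW
  Pool.Agent.W603.LV Pool.Agent.W619.Y Pool.Agent.TH122.AB MvPolynomial Pool.Agent.Y173.QA

namespace Pool.Agent.V11168.Abund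

variable {k : Type} [Field k] [CharZero k] {L : Type} [Field L] [Algebra k L]

theorem pres_smul {P : Place k L} {c : L} (hc : P.Reg c) {D : Derivation k L L}
    (hD : Pres P D) : Pres P (c • D) := by
  intro f hf
  rw [Derivation.smul_apply, smul_eq_mul]
  exact P.reg_mul hc (hD f hf)

theorem adic_ne {d : ℕ} {Z : Fin d → L} (hZ : AlgebraicIndependent k Z)
    {f : MvPolynomial (Fin d) k} (hf : f ≠ 0) : aeval Z f ≠ 0 := fun h0 =>
  hf ((injective_iff_map_eq_zero _).1 hZ _ h0)

/-- clearing the denominators of finitely many vector fields at the vertical places -/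
theorem exists_rho {a r : ℕ} {Z : Fin (a + r) → L} (hZ : IsTranscendenceBasis k Z)
    (hfd : FiniteDimensional (IntermediateField.adjoin k (Set.range Z)) L)
    (Φ : Fin (a + r) → Derivation k L L) :
    ∃ r0 : MvPolynomial (Fin (a + r)) k, r0 ≠ 0 ∧ Vert r0 ∧
      ∀ p : MvPolynomial (Fin (a + r)) k, Irreducible p → Vert p →
        ∀ P : Place k L, Adic Z p P → ∀ b, Pres P (aeval Z r0 • Φ b) := by
  classical
  choose q hq0 hq using fun b => exists_clear hZ hfd (Φ b)
  obtain ⟨Q, hQ⟩ : ∃ Q, Q = ∏ b, q b := ⟨_, rfl⟩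
  have hQ0 : Q ≠ 0 := by
    rw [hQ]
    exact Finset.prod_ne_zero_iff.2 fun b _ => hq0 b
  obtain ⟨r0, Q', hr0, hQr, hQ'⟩ := exists_vert_part hQ0
  have hr00 : r0 ≠ 0 := by
    rintro rfl
    exact hQ0 (by rw [hQr, zero_mul])
  have hQ'0 : Q' ≠ 0 := by
    rintro rfl
    exact hQ0 (by rw [hQr, mul_zero])
  refine ⟨r0, hr00, hr0, fun p hp hpv P hP b => ?_⟩
  have h1 : Pres P (aeval Z Q • Φ b) := by
    rw [hQ, ← Finset.mul_prod_erase Finset.univ q (Finset.mem_univ b), map_mul,
      mul_comm (aeval Z (q b)), ← smul_smul]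
    exact pres_smul (adic_reg hP _) (hq b p hp P hP)
  have h2 : P.ord (aeval Z Q') = 0 := (hP Q' hQ'0).2.2 (hQ' p hp hpv)
  have h3 : aeval Z r0 • Φ b = (aeval Z Q')⁻¹ • (aeval Z Q • Φ b) := by
    rw [smul_smul, hQr, map_mul, mul_comm (aeval Z r0), ← mul_assoc,
      inv_mul_cancel₀ (adic_ne hZ.1 hQ'0), one_mul]
  rw [h3]
  refine pres_smul (Or.inr ?_) h1
  rw [P.ord_inv, h2, neg_zero]

/-- **The upper bound.** The sections of `m K + A` grow at most like `m ^ a`, if the constant vector
fields `U` along the fibres of the `t 1, ..., t a` are regular on a projective model. -/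
theorem num_core {a r N : ℕ} (hpos : 0 < a + r) (htr : Algebra.trdeg k L = (a + r : ℕ))
    (hfin : ∀ y : Fin (a + r) → L, IsTranscendenceBasis k y →
      FiniteDimensional (IntermediateField.adjoin k (Set.range y)) L)
    {t : Fin a → L} (ht : AlgebraicIndependent k t) {z : Fin (N + 1) → L} (hz0 : ∀ i, z i ≠ 0)
    (htop : ∀ i, IntermediateField.adjoin k (Set.range fun j => z j / z i) = ⊤)
    {U : Fin r → Derivation k L L} (hUt : ∀ i j, U i (t j) = 0)
    (hUB : ∀ l i j, U l (z j / z i) ∈ Algebra.adjoin k (Set.range fun j => z j / z i))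
    (hUspan : ∀ D : Derivation k L L, (∀ j, D (t j) = 0) → ∃ c : Fin r → L, D = ∑ i, c i • U i) :
    NumLe k L (a + r) (fun _ => False) a := by
  classical
  intro S
  obtain ⟨x, hch⟩ := exists_chart htr ht (Set.finite_range fun j => z j / z 0) (htop 0)
  have hZ := hch.bas
  have hfd := hfin _ hZ
  obtain ⟨E, hE⟩ := exists_duals hZ
  obtain ⟨F, hFdef⟩ : ∃ F : Fin a → Derivation k L L, F = fun j => E (Fin.castAdd r j) := ⟨_, rfl⟩
  have hF : ∀ j l, F j (t l) = if j = l then 1 else 0 := by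
    intro j l
    have h1 := hE (Fin.castAdd r j) (Fin.castAdd r l)
    rw [Fin.append_left] at h1
    rw [hFdef]
    simp only []
    rw [h1]
    by_cases hjl : j = l
    · rw [if_pos hjl, if_pos (by rw [hjl])]
    · rw [if_neg hjl, if_neg (fun h => hjl (Fin.castAdd_injective a r h))]
  obtain ⟨Φ, hΦdef⟩ : ∃ Φ : Fin (a + r) → Derivation k L L, Φ = Fin.append F U := ⟨_, rfl⟩
  have hΦ : ∀ D : Derivation k L L, ∃ c : Fin (a + r) → L, D = ∑ i, c i • Φ i := by
    intro D
    obtain ⟨c, hc⟩ := hUspan (D - ∑ j, D (t j) • F j) (fun l => by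
      rw [Derivation.sub_apply, Pool.Agent.W721.PG.EFF2.der_sum, Finset.sum_eq_single l]
      · rw [hF, if_pos rfl, mul_one, sub_self]
      · intro b _ hb
        rw [hF, if_neg hb, mul_zero]
      · intro hj
        exact absurd (Finset.mem_univ _) hj)
    refine ⟨Fin.append (fun j => D (t j)) c, ?_⟩
    rw [Fin.sum_univ_add, hΦdef]
    simp only [Fin.append_left, Fin.append_right]
    rw [← hc]
    abel
  obtain ⟨r0, hr0, hr0v, hrho⟩ := exists_rho hZ hfd Φ
  obtain ⟨ρ, hρ⟩ : ∃ ρ, ρ = aeval (Fin.append t x) r0 := ⟨_, rfl⟩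
  have hρ0 : ρ ≠ 0 := by
    rw [hρ]
    exact adic_ne hZ.1 hr0
  obtain ⟨T, hTfin, hTdeg, C, c, hcount⟩ := count_L hpos hZ hfd S
  -- the places over the degree in a variable of the base
  have hlin : ∀ P : Place k L, IsDivisorial P (a + r) → ∃ C : ℕ, ∀ (m : ℕ)
      (ω : (Fin (a + r) → Derivation k L L) → L), 1 ≤ m →
      IsSec k L (a + r) (fun _ => False) S m 1 ω →
        Ge P (-((C * m : ℕ) : ℤ)) ((ρ ^ (a + r)) ^ m * ω Φ) :=
    fun P hP => lin_bound htr hfin hP Φ S (ρ ^ (a + r))
  have hdiv : ∀ b, ∀ P ∈ T b, IsDivisorial P (a + r) := by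
    intro b P hP
    obtain ⟨e, he, hPe⟩ := hTdeg b P hP
    refine div_of_deg hZ.1 (b := b) fun f hf hf0 => ?_
    rw [hPe f hf, hf0]
    simp
  have hbound : ∀ b, ∀ P : Place k L, ∃ C1 : ℕ, P ∈ T b → ∀ (m : ℕ)
      (ω : (Fin (a + r) → Derivation k L L) → L), 1 ≤ m →
      IsSec k L (a + r) (fun _ => False) S m 1 ω →
        Ge P (-(((Fin.append (fun _ : Fin a => C1 * m) (fun _ : Fin r => C1) b : ℕ)) : ℤ))
          ((ρ ^ (a + r)) ^ m * ω Φ) := by
    intro b P
    by_cases hP : P ∈ T b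
    · revert hP
      refine Fin.addCases (fun j => ?_) (fun l => ?_) b
      · intro hP
        obtain ⟨C1, hC1⟩ := hlin P (hdiv _ P hP)
        refine ⟨C1, fun _ m ω hm hω => ?_⟩
        rw [Fin.append_left]
        exact hC1 m ω hm hω
      · intro hP
        obtain ⟨e, he, hPe⟩ := hTdeg _ P hP
        have hq : ∀ q : MvPolynomial (Fin a) k, q ≠ 0 → P.ord (aeval t q) = 0 := by
          intro q hq
          have h0 : rename (Fin.castAdd r) q ≠ 0 :=
            (map_ne_zero_iff _ (rename_injective _ (Fin.castAdd_injective a r))).2 hq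
          rw [← aeval_append_vert t x q, hPe _ h0, degreeOf_vert ⟨q, rfl⟩]
          simp
        obtain ⟨c1, hc1⟩ := x_inf htr hfin ht hz0 htop hUt hUB hUspan hF S P hq
        refine ⟨c1, fun _ m ω hm hω => ?_⟩
        rw [Fin.append_right]
        have h1 := hc1 m ω hω
        rw [← hΦdef] at h1
        have h2 : Ge P 0 ((ρ ^ (a + r)) ^ m) := by
          right
          rw [P.ord_pow, P.ord_pow, hρ, hPe _ hr0, degreeOf_vert hr0v]
          simp
        have h3 := h2.mul h1
        rwa [zero_add] at h3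
    · exact ⟨0, fun h => absurd h hP⟩
  choose C1 hC1 using hbound
  obtain ⟨K, hK⟩ : ∃ K : ℕ, K = ∑ b, ∑ P ∈ (hTfin b).toFinset, C1 b P := ⟨_, rfl⟩
  have hKle : ∀ b, ∀ P ∈ T b, C1 b P ≤ K := by
    intro b P hP
    have h1 : C1 b P ≤ ∑ P ∈ (hTfin b).toFinset, C1 b P :=
      Finset.single_le_sum (f := fun P => C1 b P) (fun _ _ => Nat.zero_le _)
        ((hTfin b).mem_toFinset.2 hP)
    have h2 : ∑ P ∈ (hTfin b).toFinset, C1 b P ≤ ∑ b, ∑ P ∈ (hTfin b).toFinset, C1 b P :=
      Finset.single_le_sum (f := fun b => ∑ P ∈ (hTfin b).toFinset, C1 b P)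
        (fun _ _ => Nat.zero_le _) (Finset.mem_univ b)
    omega
  refine ⟨C * (K + c) ^ (a + r), fun m M hm hind => ?_⟩
  obtain ⟨ω, hωlin, hω⟩ := hind
  have hρn : (ρ ^ (a + r)) ^ m ≠ 0 := pow_ne_zero _ (pow_ne_zero _ hρ0)
  have h1 := hcount (Fin.append (fun _ : Fin a => K * m) (fun _ : Fin r => K)) M
    (fun l => (ρ ^ (a + r)) ^ m * ω l Φ) (lin_frame hΦ hωlin (fun l => (hω l).1) hρn) ?_ ?_
  · refine h1.trans ?_
    rw [Fin.prod_univ_add]
    simp only [Fin.append_left, Fin.append_right, Finset.prod_const, Finset.card_univ,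
      Fintype.card_fin]
    have h2 : K * m + c ≤ (K + c) * m := by nlinarith
    calc C * ((K * m + c) ^ a * (K + c) ^ r) ≤ C * (((K + c) * m) ^ a * (K + c) ^ r) := by
          gcongr
      _ = C * (K + c) ^ (a + r) * m ^ a := by
          rw [mul_pow, pow_add]
          ring
  · intro l p hp P hP
    by_cases hpv : Vert p
    · have h2 := (hω l).2.1 P (adic_div hZ.1 hp hP) (fun h => h) (fun b => ρ • Φ b)
        (fun b => by
          rw [hρ]
          exact hrho p hp hpv P hP b)
      rwa [phi_smul (hω l).1] at h2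
    · have h2 := dom_hor htr hfin hch (htop 0) hUt (fun l b hb => by
        obtain ⟨j, rfl⟩ := hb
        exact hUB l 0 j) hUspan hF (hω l) hp hpv hP
      rw [← hΦdef] at h2
      rcases h2 with h2 | ⟨s, hs, hs0, h2⟩
      · left
        rw [h2, mul_zero]
      · by_cases h0 : ω l Φ = 0
        · left
          rw [h0, mul_zero]
        right
        refine ⟨s, hs, hs0, ?_⟩
        rw [P.ord_mul hρn h0, P.ord_pow, P.ord_pow]
        have h3 : 0 ≤ P.ord ρ := by
          rw [hρ]
          exact (hP r0 hr0).1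
        have h4 : (0 : ℤ) ≤ (m : ℤ) * (((a + r : ℕ) : ℤ) * P.ord ρ) := by positivity
        linarith
  · intro l b P hP
    have h2 := hC1 b P hP m (ω l) hm (hω l)
    refine h2.mono ?_
    have h3 := hKle b P hP
    have h4 : Fin.append (fun _ : Fin a => C1 b P * m) (fun _ : Fin r => C1 b P) b ≤
        Fin.append (fun _ : Fin a => K * m) (fun _ : Fin r => K) b := by
      revert h3
      generalize C1 b P = C2
      intro h3
      refine Fin.addCases (fun j => ?_) (fun j => ?_) b
      · rw [Fin.append_left, Fin.append_left]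
        exact Nat.mul_le_mul_right m h3
      · rw [Fin.append_right, Fin.append_right]
        exact h3
    have h5 : ((Fin.append (fun _ : Fin a => C1 b P * m) (fun _ : Fin r => C1 b P) b : ℕ) : ℤ) ≤
        ((Fin.append (fun _ : Fin a => K * m) (fun _ : Fin r => K) b : ℕ) : ℤ) := by
      exact_mod_cast h4
    linarith

end Pool.Agent.V11168.Abund
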